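import Pool.Agent.Helper91_AT3.Defs

set_option autoImplicit false
set_option linter.unusedSectionVars false

namespace Pool.Agent.H91AT

open MvPolynomial Submodule

variable {σ K ι : Type*} [DecidableEq σ] [Fintype σ] [Field K] [DecidableEq ι]

/-- vectors supported in `S` -/
def WS (K : Type*) [Field K] (S : Finset σ) : Submodule K (σ → K) where
  carrier := {x | InS S x}
  add_mem' := by
    intro x y hx hy w hw
    simp [hx w hw, hy w hw]
  zero_mem' := by
    intro w _
    rfl
  smul_mem' := by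
    intro r x hx w hw
    simp [hx w hw]

lemma mem_WS {S : Finset σ} {x : σ → K} : x ∈ WS K S ↔ InS S x := Iff.rfl

lemma finrank_WS_le (S : Finset σ) : Module.finrank K (WS K S) ≤ S.card := by
  have h := LinearMap.finrank_le_finrank_of_injective
    (f := ((LinearMap.funLeft K K (Subtype.val : S → σ)).comp (WS K S).subtype)) (by
      intro x y hxy
      apply Subtype.ext
      funext w
      by_cases hw : w ∈ S
      · exact congrFun hxy ⟨w, hw⟩
      · rw [mem_WS.1 x.2 w hw, mem_WS.1 y.2 w hw])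
  simpa using h

lemma mem_span_fun {b : ι → σ → K} {B : Finset ι} {x : σ → K}
    (h : x ∈ span K (b '' (B : Set ι))) : ∃ g : ι → K, ∑ c ∈ B, g c • b c = x := by
  obtain ⟨g, hg⟩ := (Submodule.mem_span_image_finset_iff_exists_fun K).1 h
  refine ⟨fun c => if hc : c ∈ B then g ⟨c, hc⟩ else 0, ?_⟩
  rw [← hg, ← Finset.sum_coe_sort B]
  apply Finset.sum_congr rfl
  intro c _
  simp

/-- expansion in a basis -/
lemma bas_span {S : Finset σ} {b : ι → σ → K} {B : Finset ι} (h : Bas S b B) {x : σ → K}
    (hx : InS S x) : ∃ g : ι → K, ∑ c ∈ B, g c • b c = x := by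
  obtain ⟨hc, hl, hin⟩ := h
  have hle : span K (b '' (B : Set ι)) ≤ WS K S := by
    rw [span_le]
    rintro _ ⟨c, hc', rfl⟩
    exact hin c hc'
  have hfr : Module.finrank K (span K (b '' (B : Set ι))) = S.card := by
    have h1 := finrank_span_eq_card (R := K) hl
    rw [Set.image_eq_range]
    rw [h1]
    simp [hc]
  have heq : span K (b '' (B : Set ι)) = WS K S := by
    apply Submodule.eq_of_le_of_finrank_le hle
    rw [hfr]
    exact finrank_WS_le S
  have hmem : x ∈ span K (b '' (B : Set ι)) := by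
    rw [heq]; exact hx
  exact mem_span_fun hmem

/-- uniqueness of the coefficients -/
lemma coef_unique {b : ι → σ → K} {B : Finset ι} (hl : LinearIndepOn K b (B : Set ι))
    {g g' : ι → K} (h : ∑ c ∈ B, g c • b c = ∑ c ∈ B, g' c • b c) {c : ι} (hc : c ∈ B) :
    g c = g' c := by
  have h1 := (linearIndepOn_finset_iff.1 hl) (fun c => g c - g' c) (by
    simp only [sub_smul]
    rw [Finset.sum_sub_distrib, h, sub_self]) c hc
  exact sub_eq_zero.1 h1

/-- (3): some element of a basis does not vanish at `v` -/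
theorem bas_star {S : Finset σ} {b : ι → σ → K} {B : Finset ι} (h : Bas S b B) {v : σ}
    (hv : v ∈ S) : ∃ c ∈ B, b c v ≠ 0 := by
  by_contra hcon
  push Not at hcon
  obtain ⟨g, hg⟩ := bas_span h (x := Pi.single v (1 : K)) (by
    intro w hw
    have : w ≠ v := by rintro rfl; exact hw hv
    simp [this])
  have h1 := congrFun hg v
  rw [Finset.sum_apply] at h1
  rw [Finset.sum_eq_zero (fun c hc => by simp [hcon c hc])] at h1
  simp at h1

/-- (1) -/
theorem bas_one {S : Finset σ} {b : ι → σ → K} {B : Finset ι} {v : σ} (hv : v ∉ S)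
    (h : Bas (insert v S) b B) {x : ι} (hx : x ∈ B) (h0 : ∀ c ∈ B, c ≠ x → b c v = 0) :
    Bas S b (B.erase x) := by
  obtain ⟨hc, hl, hin⟩ := h
  refine ⟨?_, hl.mono (by simp), ?_⟩
  · rw [Finset.card_erase_of_mem hx, hc, Finset.card_insert_of_notMem hv]
    rfl
  · intro c hc' w hw
    rw [Finset.mem_erase] at hc'
    by_cases hwv : w = v
    · subst hwv; exact h0 c hc'.2 hc'.1
    · exact hin c hc'.2 w (by simp [hwv, hw])

/-- (2) -/
theorem bas_two {S : Finset σ} {b b' : ι → σ → K} {B : Finset ι} {v : σ} (hv : v ∉ S)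
    (h : Bas (insert v S) b B) {x y : ι} (hx : x ∈ B) (hy : y ∈ B) (hxy : x ≠ y)
    (hbx : b x v = 1) (hby : b y v = 1) (h0 : ∀ c ∈ B, c ≠ x → c ≠ y → b c v = 0)
    (hx' : b' x = b x - b y) (hc' : ∀ c ∈ B, c ≠ x → c ≠ y → b' c = b c) :
    Bas S b' (B.erase y) := by
  obtain ⟨hc, hl, hin⟩ := h
  have hxe : x ∈ B.erase y := Finset.mem_erase.2 ⟨hxy, hx⟩
  refine ⟨?_, ?_, ?_⟩
  · rw [Finset.card_erase_of_mem hy, hc, Finset.card_insert_of_notMem hv]
    rfl
  · rw [linearIndepOn_finset_iff]
    intro g hg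
    have key : ∑ c ∈ B, (if c = y then - g x else g c) • b c = 0 := by
      rw [← Finset.add_sum_erase B _ hy, if_pos rfl]
      rw [← Finset.add_sum_erase _ _ hxe, if_neg hxy]
      rw [← Finset.add_sum_erase _ _ hxe, hx'] at hg
      have h2 : ∑ c ∈ (B.erase y).erase x, (if c = y then - g x else g c) • b c =
          ∑ c ∈ (B.erase y).erase x, g c • b' c := by
        apply Finset.sum_congr rfl
        intro c hc
        simp only [Finset.mem_erase] at hc
        rw [if_neg hc.2.1, hc' c hc.2.2 hc.1 hc.2.1]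
      rw [h2, ← hg, smul_sub]
      module
    intro c hc
    have h3 := (linearIndepOn_finset_iff.1 hl) _ key c (Finset.mem_of_mem_erase hc)
    rw [if_neg (Finset.ne_of_mem_erase hc)] at h3
    exact h3
  · intro c hcm w hw
    rw [Finset.mem_erase] at hcm
    by_cases hcx : c = x
    · subst hcx
      rw [hx']
      by_cases hwv : w = v
      · subst hwv
        simp [hbx, hby]
      · simp [hin c hx w (by simp [hwv, hw]), hin y hy w (by simp [hwv, hw])]
    · rw [hc' c hcm.2 hcx hcm.1]
      by_cases hwv : w = v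
      · subst hwv
        exact h0 c hcm.2 hcx hcm.1
      · exact hin c hcm.2 w (by simp [hwv, hw])

/-- exchange of one element -/
lemma bas_exch {S : Finset σ} {b : ι → σ → K} {B : Finset ι} (h : Bas S b B) {x e : ι}
    (hx : x ∉ B) (hxS : InS S (b x)) {g : ι → K} (hg : ∑ c ∈ B, g c • b c = b x) (he : e ∈ B)
    (hge : g e ≠ 0) : Bas S b (insert x (B.erase e)) := by
  obtain ⟨hc, hl, hin⟩ := h
  have hxe : x ∉ B.erase e := fun hh => hx (Finset.mem_of_mem_erase hh)
  refine ⟨?_, ?_, ?_⟩
  · rw [Finset.card_insert_of_notMem hxe, Finset.card_erase_of_mem he]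
    have : 0 < B.card := Finset.card_pos.2 ⟨e, he⟩
    omega
  · rw [Finset.coe_insert, linearIndepOn_insert (by rw [Finset.mem_coe]; exact hxe)]
    refine ⟨hl.mono (by simp), ?_⟩
    intro hmem
    obtain ⟨k, hk⟩ := mem_span_fun hmem
    have h1 : ∑ c ∈ B, g c • b c = ∑ c ∈ B, (if c = e then 0 else k c) • b c := by
      rw [hg, ← hk, ← Finset.add_sum_erase B _ he, if_pos rfl, zero_smul, zero_add]
      apply Finset.sum_congr rfl
      intro c hc
      rw [if_neg (Finset.ne_of_mem_erase hc)]
    have h2 := coef_unique hl h1 he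
    rw [if_pos rfl] at h2
    exact hge h2
  · intro c hcm
    rcases Finset.mem_insert.1 hcm with rfl | hcm
    · exact hxS
    · exact hin c (Finset.mem_of_mem_erase hcm)

/-- (4): the exchange lemma -/
theorem bas_exchange [DecidableEq K] (h2 : (2 : K) ≠ 0) {S : Finset σ} {b : ι → σ → K} {B₁ B₂ : Finset ι} {v : σ}
    (hd : Disjoint B₁ B₂) (hB₁ : Bas S b B₁) (hB₂ : Bas S b B₂)
    (h3 : (B₁.filter (fun c => b c v ≠ 0)).card = 3)
    (h1 : (B₂.filter (fun c => b c v ≠ 0)).card = 1) :
    ∃ c ∈ B₁, b c v ≠ 0 ∧ ∃ g ∈ B₂, b g v = 0 ∧ Bas S b (insert g (B₁.erase c)) ∧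
      Bas S b (insert c (B₂.erase g)) := by
  by_contra hcon
  push Not at hcon
  obtain ⟨d, hd1⟩ := Finset.card_eq_one.1 h1
  have hdm : d ∈ B₂.filter (fun c => b c v ≠ 0) := by rw [hd1]; simp
  rw [Finset.mem_filter] at hdm
  have hzero : ∀ e ∈ B₂, e ≠ d → b e v = 0 := by
    intro e he hed
    by_contra hne
    have : e ∈ B₂.filter (fun c => b c v ≠ 0) := Finset.mem_filter.2 ⟨he, hne⟩
    rw [hd1, Finset.mem_singleton] at this
    exact hed this
  -- expansions of the elements of `B₂` in `B₁`
  have hex : ∀ e, ∃ k : ι → K, e ∈ B₂ → ∑ c ∈ B₁, k c • b c = b e := by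
    intro e
    by_cases he : e ∈ B₂
    · obtain ⟨k, hk⟩ := bas_span hB₁ (hB₂.2.2 e he)
      exact ⟨k, fun _ => hk⟩
    · exact ⟨0, fun h => absurd h he⟩
  choose k hk using hex
  have main : ∀ x ∈ B₁, b x v ≠ 0 → k d x * b x v = b d v := by
    intro x hx hxv
    obtain ⟨g, hg⟩ := bas_span hB₂ (hB₁.2.2 x hx)
    have hx2 : x ∉ B₂ := fun hh => (Finset.disjoint_left.1 hd) hx hh
    -- value at `v`
    have hv : g d * b d v = b x v := by
      have := congrFun hg v
      rw [Finset.sum_apply, ← Finset.add_sum_erase B₂ _ hdm.1,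
        Finset.sum_eq_zero (s := B₂.erase d) (fun e he => by
          simp [hzero e (Finset.mem_of_mem_erase he) (Finset.ne_of_mem_erase he)])] at this
      simpa using this
    -- the other coefficients
    have hprod : ∀ e ∈ B₂, e ≠ d → g e * k e x = 0 := by
      intro e he hed
      by_contra hne
      have hge : g e ≠ 0 := left_ne_zero_of_mul hne
      have hke : k e x ≠ 0 := right_ne_zero_of_mul hne
      have he1 : e ∉ B₁ := fun hh => (Finset.disjoint_left.1 hd) hh he
      exact hcon x hx hxv e he (hzero e he hed)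
        (bas_exch hB₁ he1 (hB₂.2.2 e he) (hk e he) hx hke)
        (bas_exch hB₂ hx2 (hB₁.2.2 x hx) hg he hge)
    -- compare the coefficient of `x`
    have h4 : ∑ c ∈ B₁, (∑ e ∈ B₂, g e * k e c) • b c = ∑ c ∈ B₁, (if c = x then 1 else 0 : K) • b c := by
      have h5 : ∑ c ∈ B₁, (if c = x then 1 else 0 : K) • b c = b x := by
        rw [Finset.sum_eq_single x]
        · simp
        · intro c _ hc; simp [hc]
        · intro h; exact absurd hx h
      rw [h5, ← hg]
      simp only [Finset.sum_smul]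
      rw [Finset.sum_comm]
      apply Finset.sum_congr rfl
      intro e he
      rw [← hk e he, Finset.smul_sum]
      apply Finset.sum_congr rfl
      intro c _
      rw [mul_smul]
    have h6 := coef_unique hB₁.2.1 h4 hx
    rw [if_pos rfl, ← Finset.add_sum_erase B₂ _ hdm.1,
      Finset.sum_eq_zero (s := B₂.erase d) (fun e he =>
        hprod e (Finset.mem_of_mem_erase he) (Finset.ne_of_mem_erase he)), add_zero] at h6
    calc k d x * b x v = k d x * (g d * b d v) := by rw [hv]
      _ = (g d * k d x) * b d v := by ring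
      _ = b d v := by rw [h6, one_mul]
  have hfin : b d v = ∑ c ∈ B₁.filter (fun c => b c v ≠ 0), b d v := by
    have := congrFun (hk d hdm.1) v
    rw [Finset.sum_apply] at this
    conv_lhs => rw [← this]
    rw [Finset.sum_filter]
    apply Finset.sum_congr rfl
    intro c hc
    by_cases hcv : b c v = 0
    · simp [hcv]
    · rw [if_pos hcv]
      simpa using main c hc hcv
  rw [Finset.sum_const, h3, nsmul_eq_mul] at hfin
  have : (2 : K) * b d v = 0 := by
    have h7 : ((3 : ℕ) : K) * b d v = (2 : K) * b d v + b d v := by push_cast; ring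
    rw [h7] at hfin
    exact left_eq_add.1 (by rw [add_comm]; exact hfin)
  rcases mul_eq_zero.1 this with h | h
  · exact h2 h
  · exact hdm.2 h

end Pool.Agent.H91AT
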